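import Pool.Agent.Lib.MP_fe5cb4_co.FCT.Four
import Pool.Agent.Lib.MP_fe5cb4_co.FCT.Top
import Pool.Agent.Lib.MP_fe5cb4_co.Sey.DrawThm

set_option autoImplicit false

namespace Pool.Agent.Results.MP_fe5cb4_co.SeymourAll

/-- Every planar `r`-graph is class 1. -/
theorem result : ∀ (r : ℕ) (V E : Type) [Finite V] [Finite E] (s d : E → V),
    (∀ e, s e ≠ d e) →
    (∀ v, Nat.card {e : E // s e = v ∨ d e = v} = r) →
    (∀ U : Set V, Odd (Nat.card U) →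
      r ≤ Nat.card {e : E // (s e ∈ U ∧ d e ∉ U) ∨ (s e ∉ U ∧ d e ∈ U)}) →
    (∃ p : V → ℂ, Function.Injective p ∧ ∃ γ : E → unitInterval → ℂ,
      (∀ e, Continuous (γ e) ∧ Function.Injective (γ e) ∧ γ e 0 = p (s e) ∧ γ e 1 = p (d e)) ∧
      (∀ e x, γ e x ∈ Set.range p → x = 0 ∨ x = 1) ∧
      (∀ e e' x y, e ≠ e' → γ e x = γ e' y → γ e x ∈ Set.range p)) →
    ∃ M : Fin r → Set E,
      (∀ i v, Nat.card {e : E // e ∈ M i ∧ (s e = v ∨ d e = v)} = 1) ∧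
      ∀ e, Nat.card {i : Fin r // e ∈ M i} = 1 :=
  fun r V E _ _ s d h1 h2 h3 h4 => Pool.Agent.FCT.seymour_of_four Pool.Agent.FCT.four_thm r V E s d
    h1 h2 h3 (Pool.Agent.Lib.MP_fe5cb4_co.Sey.drawn_thm V E s d h1 h4)

end Pool.Agent.Results.MP_fe5cb4_co.SeymourAll
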